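import Mathlib
import Pool.Agent.Helper9.TF.Defs
import Pool.Agent.Helper48.QD.Sf

/-!
# The entries of the powers of `AM` as path integrals of `om * gm * gm`
-/

namespace Pool.Agent.Helper48.TF

open Finset MeasureTheory
open Pool.Agent.Helper9.TB Pool.Agent.Helper9.TF
open Pool.Agent.Helper48.QD (sf_top)

/-- the path integral of an odd entire function vanishes -/
theorem PI_odd {f : ℂ → ℂ} (hf : Differentiable ℂ f) (hodd : ∀ y, f (-y) = -f y) {h : ℝ}
    (hh : 0 ≤ h) : PI f h = 0 := by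
  have h0 := LI_zero hh hf.differentiableOn
  have hc := hf.continuous
  have iv : ∀ x a b : ℝ, IntervalIntegrable (fun y : ℝ => f (x + y * Complex.I)) volume a b :=
    fun x a b => (hc.comp (by fun_prop)).intervalIntegrable a b
  have e1 : hor f (-1 / 2) (1 / 2) h = -hor f (-1 / 2) (1 / 2) (-h) := by
    unfold hor
    have h1 := intervalIntegral.integral_comp_neg (a := -1 / 2) (b := 1 / 2)
      (fun x : ℝ => f (x + h * Complex.I))
    rw [show -(1 / 2 : ℝ) = -1 / 2 by norm_num, show -(-1 / 2 : ℝ) = 1 / 2 by norm_num] at h1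
    rw [← h1, ← intervalIntegral.integral_neg]
    apply intervalIntegral.integral_congr
    intro x _
    simp only
    rw [← hodd]
    congr 1
    push_cast
    ring
  have e2 : ∀ x : ℝ, ver f x 0 h = -ver f (-x) (-h) 0 := by
    intro x
    unfold ver
    have h1 := intervalIntegral.integral_comp_neg (a := -h) (b := 0)
      (fun y : ℝ => f (x + y * Complex.I))
    rw [neg_neg, neg_zero] at h1
    rw [← h1, ← intervalIntegral.integral_neg]
    apply intervalIntegral.integral_congr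
    intro y _
    simp only
    rw [← hodd]
    congr 1
    push_cast
    ring
  have e3 : ∀ x : ℝ, ver f x (-h) h = ver f x (-h) 0 + ver f x 0 h := by
    intro x
    unfold ver
    rw [intervalIntegral.integral_add_adjacent_intervals (iv x _ _) (iv x _ _)]
  unfold LI at h0
  rw [e1, e3, e3, e2, e2, show -(1 / 2 : ℝ) = -1 / 2 by norm_num,
    show -(-1 / 2 : ℝ) = 1 / 2 by norm_num] at h0
  unfold PI
  linear_combination h0 / 2

lemma Ly_sub_lam {N : ℕ} (hN : 0 < N) (k : ℕ) (y : ℂ) :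
    Ly y - lam N k = -(4 * Complex.cos (Real.pi * (y + xk N k)) * Complex.cos (Real.pi * (y - xk N k))) := by
  have hNc : (N : ℂ) ≠ 0 := by exact_mod_cast hN.ne'
  unfold Ly lam lamR xk
  have h1 := Complex.cos_add_cos (2 * Real.pi * y) (((Real.pi * ((2 * k + 1) / N) : ℝ)) : ℂ)
  have e1 : (2 * Real.pi * y + (((Real.pi * ((2 * k + 1) / N) : ℝ)) : ℂ)) / 2 =
      Real.pi * (y + (((2 * k + 1) / (2 * N) : ℝ) : ℂ)) := by
    push_cast
    field_simp
  have e2 : (2 * Real.pi * y - (((Real.pi * ((2 * k + 1) / N) : ℝ)) : ℂ)) / 2 =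
      Real.pi * (y - (((2 * k + 1) / (2 * N) : ℝ) : ℂ)) := by
    push_cast
    field_simp
  rw [e1, e2] at h1
  rw [← Complex.ofReal_cos] at h1
  push_cast at h1 ⊢
  linear_combination (-2 : ℂ) * h1

lemma lam_refl {N : ℕ} (hN : 0 < N) {k : ℕ} (hk : k < N) : lam N (N - 1 - k) = lam N k := by
  have hNR : (N : ℝ) ≠ 0 := by positivity
  unfold lam lamR
  congr 2
  rw [← Real.cos_two_pi_sub]
  congr 1
  rw [Nat.sub_sub, Nat.cast_sub (by omega)]
  push_cast
  field_simp
  ring

lemma gm_eq {N m : ℕ} (hN : 0 < N) (y : ℂ) :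
    gm N m y = (-1) ^ m * (∏ k ∈ range m, (Ly y - lam N k)) / ((sf N m : ℝ) : ℂ) ^ 2 := by
  unfold gm
  congr 1
  simp_rw [Ly_sub_lam hN]
  rw [Finset.prod_neg, card_range, ← mul_assoc, ← mul_pow]
  simp

lemma gm_refl {N l : ℕ} (hl : l < N) (y : ℂ) :
    gm N (N - 1 - l) y = (-1) ^ (N - 1 - l) * (∏ k ∈ Ico (l + 1) N, (Ly y - lam N k)) *
      ((sf N l : ℝ) : ℂ) ^ 2 / (N : ℂ) ^ 2 := by
  have hN : 0 < N := by omega
  rw [gm_eq hN]
  have e1 : ∏ k ∈ range (N - 1 - l), (Ly y - lam N k) = ∏ k ∈ Ico (l + 1) N, (Ly y - lam N k) := by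
    apply Finset.prod_bij (fun k _ => N - 1 - k)
    · intro k hk
      rw [mem_range] at hk
      rw [mem_Ico]
      omega
    · intro a ha b hb hab
      rw [mem_range] at ha hb
      omega
    · intro b hb
      rw [mem_Ico] at hb
      exact ⟨N - 1 - b, by rw [mem_range]; omega, by omega⟩
    · intro k hk
      rw [mem_range] at hk
      rw [lam_refl hN (by omega)]
  have e2 : sf N l * sf N (N - 1 - l) = N := by
    have key : ∀ j, j ≤ N - 1 → sf N j * sf N (N - 1 - j) = N := by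
      intro j
      induction j with
      | zero => intro _; rw [sf_zero, one_mul, Nat.sub_zero, sf_top hN]
      | succ j ih =>
        intro hj
        have ih' := ih (by omega)
        rw [show N - 1 - j = (N - 1 - (j + 1)) + 1 by omega, sf_succ] at ih'
        have e3 : sb ((N - 1 - (j + 1) + 1 : ℕ) / (N : ℝ)) = sb ((j + 1 : ℕ) / (N : ℝ)) := by
          unfold sb
          congr 1
          rw [← Real.sin_pi_sub]
          congr 1
          have hNR : (N : ℝ) ≠ 0 := by positivity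
          have : ((N - 1 - (j + 1) + 1 : ℕ) : ℝ) = N - (j + 1 : ℕ) := by
            rw [show N - 1 - (j + 1) + 1 = N - (j + 1) by omega, Nat.cast_sub (by omega)]
          rw [this]
          field_simp
          ring
        rw [e3] at ih'
        rw [sf_succ]
        linear_combination ih'
    exact key l (by omega)
  have h1 : ((sf N l : ℝ) : ℂ) * ((sf N (N - 1 - l) : ℝ) : ℂ) = N := by
    rw [← Complex.ofReal_mul, e2]; simp
  have p1 : ((sf N (N - 1 - l) : ℝ) : ℂ) ≠ 0 := by
    have := sf_pos (M := (N : ℝ)) (n := N - 1 - l) (by exact_mod_cast (by omega : N - 1 - l < N))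
    exact_mod_cast this.ne'
  have hNc : (N : ℂ) ≠ 0 := by exact_mod_cast hN.ne'
  rw [e1, div_eq_div_iff (pow_ne_zero 2 p1) (pow_ne_zero 2 hNc), ← h1]
  ring

lemma prod_split {N l m : ℕ} (hlm : m ≤ l) (hl : l < N) (f : ℕ → ℂ) :
    (∏ k ∈ range m, f k) * (∏ k ∈ Ico m (l + 1), f k) * (∏ k ∈ Ico (l + 1) N, f k) =
      ∏ k ∈ range N, f k := by
  rw [range_eq_Ico, Finset.prod_Ico_consecutive f (Nat.zero_le m) (by omega),
    Finset.prod_Ico_consecutive f (Nat.zero_le _) (by omega), ← range_eq_Ico]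

theorem AM_entry {N : ℕ} {h : ℝ} (hh : 0 < h) (a : ℕ) (l m : Fin N) :
    2 * Real.pi * Complex.I * (cM N ^ a * (AM N N ^ a) l m) =
      (-1) ^ (N - 1) * N ^ 2 * PI (fun y => om N a y * (gm N m y * gm N (N - 1 - l) y)) h := by
  have hN : 0 < N := lt_of_le_of_lt (Nat.zero_le _) l.2
  have hNc : (N : ℂ) ≠ 0 := by exact_mod_cast hN.ne'
  have hNR : (N : ℝ) - 1 / 2 < N := by linarith
  obtain ⟨l, hlN⟩ := l
  obtain ⟨m, hmN⟩ := m
  rcases le_or_gt m l with hml | hml
  · obtain ⟨n, rfl⟩ : ∃ n, l = m + n := ⟨l - m, by omega⟩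
    have hlt : m + n < N := hlN
    have h1 := AN_pow_PI hh a n m hlt
    rw [h1]
    simp only
    rw [← PI_mul, ← PI_mul]
    apply PI_congr hh.le
    intro y hy
    have hne : ∀ k, k < N → Ly y - lam N k ≠ 0 := fun k hk => Ly_ne hNR hk hh hy
    have hsplit := prod_split (N := N) (l := m + n) (m := m) (by omega) hlt
      (fun k => Ly y - lam N k)
    have p1 : ∏ k ∈ range m, (Ly y - lam N k) ≠ 0 := prod_ne_zero_iff.2 fun k hk => hne k (by
      rw [mem_range] at hk; omega)
    have p2 : ∏ k ∈ Ico m (m + n + 1), (Ly y - lam N k) ≠ 0 := prod_ne_zero_iff.2 fun k hk =>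
      hne k (by rw [mem_Ico] at hk; omega)
    have p3 : ∏ k ∈ Ico (m + n + 1) N, (Ly y - lam N k) ≠ 0 := prod_ne_zero_iff.2 fun k hk =>
      hne k (by rw [mem_Ico] at hk; omega)
    have hbb : ∏ k ∈ Ico (m + 1) (m + n + 1), bb N k =
        (-1) ^ n * (((sf N (m + n) : ℝ) : ℂ) / ((sf N m : ℝ) : ℂ)) ^ 2 := by
      clear hsplit p2 p3 h1 hml hlN
      induction n with
      | zero =>
        have := sf_pos (M := (N : ℝ)) (n := m) (by exact_mod_cast hmN)
        have h2 : ((sf N m : ℝ) : ℂ) ≠ 0 := by exact_mod_cast this.ne'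
        simp [h2]
      | succ n ih =>
        have ih' := ih (by omega)
        rw [show m + (n + 1) + 1 = m + n + 1 + 1 by ring, prod_Ico_succ_top (by omega), ih',
          show m + (n + 1) = m + n + 1 by ring, sf_succ]
        unfold bb
        push_cast
        ring
    unfold GG KR om
    rw [gm_eq hN, gm_refl hlt, hbb]
    unfold DN
    rw [← hsplit]
    have q1 : ((sf N m : ℝ) : ℂ) ≠ 0 := by
      have := sf_pos (M := (N : ℝ)) (n := m) (by exact_mod_cast hmN)
      exact_mod_cast this.ne'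
    set P1 := ∏ k ∈ range m, (Ly y - lam N k)
    set P2 := ∏ k ∈ Ico m (m + n + 1), (Ly y - lam N k)
    set P3 := ∏ k ∈ Ico (m + n + 1) N, (Ly y - lam N k)
    have hsign : (-1 : ℂ) ^ (N - 1) * ((-1) ^ m * (-1) ^ (N - 1 - (m + n))) = (-1) ^ n := by
      rw [← pow_add, ← pow_add]
      obtain ⟨j, hj⟩ : ∃ j, N = m + n + 1 + j := ⟨N - (m + n + 1), by omega⟩
      have e1 : N - 1 + (m + (N - 1 - (m + n))) = 2 * (m + j) + n := by omega
      rw [e1, pow_add, pow_mul]
      simp
    have hcast : ((N : ℝ) : ℂ) = N := by simp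
    field_simp
    rw [← hsign]
    push_cast
    ring_nf
  · have hz : (AM N N ^ a) ⟨l, hlN⟩ ⟨m, hmN⟩ = 0 := by
      have := (AM_LT (N := N) (M := N) (by linarith)).pow a
      exact this.1 _ _ hml
    rw [hz, mul_zero, mul_zero]
    simp only
    have key : PI (fun y => om N a y * (gm N m y * gm N (N - 1 - l) y)) h =
        PI (fun y => Complex.exp (Real.pi * Complex.I * (a * N) * y ^ 2) * dLy y *
          ((-1) ^ m / ((sf N m : ℝ) : ℂ) ^ 2 * ((-1) ^ (N - 1 - l) *
          ((sf N l : ℝ) : ℂ) ^ 2 / (N : ℂ) ^ 2) * ∏ k ∈ Ico (l + 1) m, (Ly y - lam N k))) h := by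
      apply PI_congr hh.le
      intro y hy
      have hne : ∀ k, k < N → Ly y - lam N k ≠ 0 := fun k hk => Ly_ne hNR hk hh hy
      have hDN : DN N y ≠ 0 := prod_ne_zero_iff.2 fun k hk => hne k (mem_range.1 hk)
      unfold om
      rw [gm_eq hN, gm_refl hlN]
      have h2 : (∏ k ∈ range m, (Ly y - lam N k)) * (∏ k ∈ Ico (l + 1) N, (Ly y - lam N k)) =
          DN N y * ∏ k ∈ Ico (l + 1) m, (Ly y - lam N k) := by
        unfold DN
        have h3 : (∏ k ∈ Ico (l + 1) m, (Ly y - lam N k)) * (∏ k ∈ Ico m N, (Ly y - lam N k)) =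
            ∏ k ∈ Ico (l + 1) N, (Ly y - lam N k) :=
          Finset.prod_Ico_consecutive _ (by omega) hmN.le
        have h4 : (∏ k ∈ range m, (Ly y - lam N k)) * (∏ k ∈ Ico m N, (Ly y - lam N k)) =
            ∏ k ∈ range N, (Ly y - lam N k) := by
          rw [range_eq_Ico, Finset.prod_Ico_consecutive _ (Nat.zero_le _) hmN.le, ← range_eq_Ico]
        rw [← h3, ← h4]
        ring
      rw [div_mul_eq_mul_div, div_eq_iff hDN]
      linear_combination (Complex.exp (Real.pi * Complex.I * (a * N) * y ^ 2) * dLy y *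
        ((-1) ^ m / ((sf N m : ℝ) : ℂ) ^ 2 * ((-1) ^ (N - 1 - l) *
          ((sf N l : ℝ) : ℂ) ^ 2 / (N : ℂ) ^ 2))) * h2
    rw [key, PI_odd _ _ hh.le, mul_zero]
    · unfold dLy Ly
      fun_prop
    · intro y
      have e1 : dLy (-y) = -dLy y := by
        unfold dLy
        rw [mul_neg, Complex.sin_neg]
        ring
      have e2 : Ly (-y) = Ly y := by
        unfold Ly
        rw [mul_neg, Complex.cos_neg]
      rw [e1, e2, neg_sq]
      ring

end Pool.Agent.Helper48.TF
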