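import Pool.Agent.Helper48.TF.GmLe

/-!
# Gap lemmas for `win 0 - 2 ll`
-/

namespace Pool.Agent.Helper48.TF

open Finset MeasureTheory Filter Topology
open Pool.Agent.Helper9.TB Pool.Agent.Helper9.TF
open Pool.Agent.Helper11.TB (ll_cont ll_zero ll_half ll_one ll_refl ll_deriv log_sin_int EE EE_deriv
  EE_add_one win_anti one_lt_C)

lemma ee_zero (u : ℝ) : ee 0 u = Real.log (2 * Real.cos (Real.pi * u)) := by
  unfold ee
  rw [mul_zero, Real.cosh_zero]
  have e : 2 * (1 + Real.cos (2 * Real.pi * u)) = (2 * Real.cos (Real.pi * u)) ^ 2 := by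
    rw [show 2 * Real.pi * u = 2 * (Real.pi * u) by ring, Real.cos_two_mul]
    ring
  rw [e, Real.log_pow]
  push_cast
  ring

lemma ll_sub (a b : ℝ) : ll b - ll a = ∫ x in a..b, Real.log (2 * Real.sin (Real.pi * x)) := by
  unfold ll
  rw [intervalIntegral.integral_interval_sub_left (log_sin_int _ _) (log_sin_int _ _)]

lemma ee_zero_eq : ee 0 = fun u => Real.log (2 * Real.sin (Real.pi * (u + 1 / 2))) := by
  funext u
  rw [ee_zero, mul_add, show Real.pi * (1 / 2) = Real.pi / 2 by ring, Real.sin_add_pi_div_two]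

lemma int_ee_zero (a b : ℝ) : ∫ u in a..b, ee 0 u = ll (b + 1 / 2) - ll (a + 1 / 2) := by
  rw [ll_sub, ee_zero_eq, intervalIntegral.integral_comp_add_right
    (fun u => Real.log (2 * Real.sin (Real.pi * u)))]

lemma ee_zero_int (a b : ℝ) : IntervalIntegrable (ee 0) volume a b := by
  rw [ee_zero_eq]
  have := (log_sin_int (a + 1 / 2) (b + 1 / 2)).comp_add_right (1 / 2)
  simpa using this

lemma win0 (ξ τ : ℝ) : win 0 ξ τ = ll (ξ + τ + 1 / 2) - ll (ξ - τ + 1 / 2) := by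
  unfold win
  rw [int_ee_zero]

lemma ll_neg (t : ℝ) : ll (-t) = - ll t := by
  have h1 := ll_sub (-t) 0
  have h2 := intervalIntegral.integral_comp_neg (a := 0) (b := t)
    (fun x => Real.log (2 * Real.sin (Real.pi * x)))
  rw [ll_zero, neg_zero] at *
  have h3 : ∫ x in (0 : ℝ)..t, Real.log (2 * Real.sin (Real.pi * -x)) = ll t := by
    unfold ll
    congr 1
    funext x
    rw [mul_neg, Real.sin_neg, mul_neg, Real.log_neg_eq_log]
  rw [h3] at h2
  linarith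

lemma ll_add_one (t : ℝ) : ll (t + 1) = ll t := by
  have := ll_refl (-t)
  rw [ll_neg] at this
  rw [show t + 1 = 1 - -t by ring, this]
  ring

lemma win0_neg (ξ τ : ℝ) : win 0 (-ξ) τ = win 0 ξ τ := by
  rw [win0, win0, show -ξ + τ + 1 / 2 = 1 - (ξ - τ + 1 / 2) by ring,
    show -ξ - τ + 1 / 2 = 1 - (ξ + τ + 1 / 2) by ring, ll_refl, ll_refl]
  ring

lemma win0_zero (τ : ℝ) : win 0 0 τ = 2 * ll (τ + 1 / 2) := by
  rw [win0, show (0 : ℝ) - τ + 1 / 2 = 1 - (τ + 1 / 2) by ring, ll_refl]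
  ring_nf

theorem U0_eq {τ : ℝ} (_ : 0 ≤ τ) (_ : τ ≤ 1) : U0 τ = win 0 0 τ - 2 * ll τ := by
  rw [win0_zero]; rfl

/-- the difference of the primitives is monotone -/
lemma D_mono {h : ℝ} (hh : 0 < h) {a b : ℝ} (hab : a ≤ b) :
    ll (b + 1 / 2) - ll (a + 1 / 2) ≤ EE h b - EE h a := by
  have h1 : EE h b - EE h a = ∫ u in a..b, ee h u := by
    unfold EE
    rw [intervalIntegral.integral_interval_sub_left
      ((Pool.Agent.Helper11.TB.ee_cont hh).intervalIntegrable _ _)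
      ((Pool.Agent.Helper11.TB.ee_cont hh).intervalIntegrable _ _)]
  rw [← int_ee_zero, h1]
  apply intervalIntegral.integral_mono_ae hab (ee_zero_int a b)
    ((Pool.Agent.Helper11.TB.ee_cont hh).intervalIntegrable _ _)
  have hc : {u : ℝ | Real.cos (Real.pi * u) = 0}.Countable := by
    apply Set.Countable.mono (s₂ := Set.range (fun k : ℤ => (k : ℝ) + 1 / 2))
    · intro u hu
      rw [Set.mem_ofPred_eq, Real.cos_eq_zero_iff] at hu
      obtain ⟨k, hk⟩ := hu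
      refine ⟨k, ?_⟩
      have hpi := Real.pi_pos
      have : Real.pi * u = Real.pi * ((k : ℝ) + 1 / 2) := by rw [hk]; ring
      exact (mul_left_cancel₀ hpi.ne' this).symm
    · exact Set.countable_range _
  have hn : ∀ᵐ u : ℝ, Real.cos (Real.pi * u) ≠ 0 := by
    have := hc.measure_zero volume
    rw [ae_iff]
    simpa using this
  filter_upwards [hn] with u hu
  unfold ee
  rw [mul_zero, Real.cosh_zero]
  have e : 2 * (1 + Real.cos (2 * Real.pi * u)) = (2 * Real.cos (Real.pi * u)) ^ 2 := by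
    rw [show 2 * Real.pi * u = 2 * (Real.pi * u) by ring, Real.cos_two_mul]
    ring
  have h2 : 0 < 2 * (1 + Real.cos (2 * Real.pi * u)) := by
    rw [e]; positivity
  have h3 := one_lt_C hh
  have h4 : Real.log (2 * (1 + Real.cos (2 * Real.pi * u))) ≤
      Real.log (2 * (Real.cosh (2 * Real.pi * h) + Real.cos (2 * Real.pi * u))) :=
    Real.log_le_log h2 (by linarith)
  linarith

lemma win_ge {h ξ τ : ℝ} (hh : 0 < h) (h0 : 0 ≤ τ) : win 0 ξ τ ≤ win h ξ τ := by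
  rw [win0, Pool.Agent.Helper11.TB.win_eq hh]
  exact D_mono hh (by linarith)

theorem win_close {h ξ τ : ℝ} (hh : 0 < h) (_ : 0 ≤ τ) (h1 : τ ≤ 1) :
    win h ξ τ ≤ win 0 ξ τ + 2 * Real.pi * h := by
  rw [win0, Pool.Agent.Helper11.TB.win_eq hh]
  have h2 := D_mono hh (a := ξ + τ) (b := ξ - τ + 2) (by linarith)
  have h3 : EE h (ξ - τ + 2) = EE h (ξ - τ) + 2 * (Real.pi * h) := by
    rw [show ξ - τ + 2 = ξ - τ + 1 + 1 by ring, EE_add_one hh, EE_add_one hh]
    ring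
  have h4 : ll (ξ - τ + 2 + 1 / 2) = ll (ξ - τ + 1 / 2) := by
    rw [show ξ - τ + 2 + 1 / 2 = ξ - τ + 1 / 2 + 1 + 1 by ring, ll_add_one, ll_add_one]
  rw [h3, h4] at h2
  linarith

theorem win_zero {ξ τ : ℝ} (hξ : |ξ| ≤ 1 / 2) (h0 : 0 ≤ τ) (h1 : τ ≤ 1 / 2) :
    win 0 ξ τ ≤ win 0 0 τ := by
  have hpi := Real.pi_pos
  have key : ∀ ξ : ℝ, 0 ≤ ξ → ξ ≤ 1 / 2 → win 0 ξ τ ≤ win 0 0 τ := by
    intro ξ x0 x1
    apply le_of_forall_pos_le_add
    intro ε hε
    have hh : 0 < ε / (2 * Real.pi) := by positivity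
    have a1 := win_ge (ξ := ξ) hh h0
    have a2 := win_anti hh h0 h1 (Set.mem_Icc.2 ⟨le_rfl, by norm_num⟩) (Set.mem_Icc.2 ⟨x0, x1⟩) x0
    have a3 := win_close (ξ := 0) hh h0 (by linarith)
    have a4 : 2 * Real.pi * (ε / (2 * Real.pi)) = ε := by field_simp
    rw [a4] at a3
    exact a1.trans (a2.trans a3)
  rcases le_total 0 ξ with h | h
  · exact key ξ h ((le_abs_self _).trans hξ)
  · rw [← win0_neg]
    exact key (-ξ) (by linarith) ((neg_le_abs _).trans hξ)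

theorem win_hi {ξ τ : ℝ} (hξ : |ξ| ≤ 1 / 2) (h0 : 1 / 2 ≤ τ) (h1 : τ ≤ 1) :
    win 0 ξ τ ≤ 2 * ll τ := by
  have key : ∀ ξ : ℝ, 0 ≤ ξ → ξ ≤ 1 / 2 → win 0 ξ τ ≤ 2 * ll τ := by
    intro ξ x0 x1
    have e : win 0 ξ τ = win 0 (ξ - 1 / 2) (τ - 1 / 2) := by
      rw [win0, win0, show ξ + τ + 1 / 2 = ξ - 1 / 2 + (τ - 1 / 2) + 1 / 2 + 1 by ring, ll_add_one]
      congr 2
      ring
    rw [e]
    have h2 := win_zero (ξ := ξ - 1 / 2) (τ := τ - 1 / 2) (by rw [abs_le]; constructor <;> linarith)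
      (by linarith) (by linarith)
    rw [win0_zero, show τ - 1 / 2 + 1 / 2 = τ by ring] at h2
    exact h2
  rcases le_total 0 ξ with h | h
  · exact key ξ h ((le_abs_self _).trans hξ)
  · rw [← win0_neg]
    exact key (-ξ) (by linarith) ((neg_le_abs _).trans hξ)

/-! ### the quadratic gap -/

lemma two_mul_le_log {T : ℝ} (h0 : 0 ≤ T) (h1 : T < 1) :
    2 * T ≤ Real.log (1 + T) - Real.log (1 - T) := by
  have h := Real.hasSum_log_sub_log_of_abs_lt_one (x := T) (by rw [abs_of_nonneg h0]; exact h1)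
  have h2 := h.summable.sum_le_tsum {0} (fun k _ => by positivity)
  rw [h.tsum_eq] at h2
  simpa using h2

/-- `G σ s = 2 ll σ - ll (σ + s) - ll (σ - s)` -/
noncomputable def Gs (σ s : ℝ) : ℝ := 2 * ll σ - ll (σ + s) - ll (σ - s)

lemma Gs_refl (σ s : ℝ) : Gs (1 - σ) s = - Gs σ s := by
  unfold Gs
  rw [show 1 - σ + s = 1 - (σ - s) by ring, show 1 - σ - s = 1 - (σ + s) by ring, ll_refl, ll_refl,
    ll_refl]
  ring

lemma Gs_mono {σ : ℝ} (h0 : 1 / 2 < σ) (h1 : σ < 1) :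
    MonotoneOn (fun s => Gs σ s - Real.pi ^ 2 * (σ - 1 / 2) * s ^ 2) (Set.Icc 0 (1 - σ)) := by
  have hpi := Real.pi_pos
  have hd : ∀ s ∈ Set.Ioo 0 (1 - σ), HasDerivAt (fun s => Gs σ s - Real.pi ^ 2 * (σ - 1 / 2) * s ^ 2)
      (-Real.log (2 * Real.sin (Real.pi * (σ + s))) + Real.log (2 * Real.sin (Real.pi * (σ - s))) -
        Real.pi ^ 2 * (σ - 1 / 2) * (2 * s)) s := by
    intro s hs
    obtain ⟨s0, s1⟩ := hs
    have d1 : HasDerivAt (fun s => σ + s) 1 s := (hasDerivAt_id s).const_add σ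
    have d2 : HasDerivAt (fun s => σ - s) (-1) s := (hasDerivAt_id s).const_sub σ
    have d3 : HasDerivAt (fun s => ll (σ + s)) (Real.log (2 * Real.sin (Real.pi * (σ + s))) * 1) s :=
      HasDerivAt.comp (h₂ := ll) s (ll_deriv (by linarith) (by linarith)) d1
    have d4 : HasDerivAt (fun s => ll (σ - s)) (Real.log (2 * Real.sin (Real.pi * (σ - s))) * (-1)) s :=
      HasDerivAt.comp (h₂ := ll) s (ll_deriv (by linarith) (by linarith)) d2
    have d5 : HasDerivAt (fun s : ℝ => Real.pi ^ 2 * (σ - 1 / 2) * s ^ 2)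
        (Real.pi ^ 2 * (σ - 1 / 2) * (2 * s)) s := by
      have := (hasDerivAt_pow 2 s).const_mul (Real.pi ^ 2 * (σ - 1 / 2))
      simpa using this
    have d6 := ((d3.const_sub (2 * ll σ)).sub d4).sub d5
    refine d6.congr_deriv ?_
    ring
  apply monotoneOn_of_deriv_nonneg (convex_Icc _ _)
  · unfold Gs
    have := ll_cont
    fun_prop
  · rw [interior_Icc]
    exact fun s hs => (hd s hs).differentiableAt.differentiableWithinAt
  · rw [interior_Icc]
    intro s hs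
    rw [(hd s hs).deriv]
    obtain ⟨s0, s1⟩ := hs
    have cs : 0 < Real.cos (Real.pi * s) := by
      apply Real.cos_pos_of_mem_Ioo
      constructor <;> nlinarith
    have ss : 0 < Real.sin (Real.pi * s) :=
      Real.sin_pos_of_pos_of_lt_pi (by positivity) (by nlinarith)
    have sσ : 0 < Real.sin (Real.pi * σ) :=
      Real.sin_pos_of_pos_of_lt_pi (by nlinarith) (by nlinarith)
    have t1 : Real.pi * (σ - 1 / 2) ≤ Real.tan (Real.pi * (σ - 1 / 2)) :=
      Real.le_tan (by nlinarith) (by nlinarith)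
    have t2 : Real.pi * s ≤ Real.tan (Real.pi * s) :=
      Real.le_tan (by positivity) (by nlinarith)
    have e1 : Real.tan (Real.pi * (σ - 1 / 2)) = -Real.cos (Real.pi * σ) / Real.sin (Real.pi * σ) := by
      rw [Real.tan_eq_sin_div_cos, show Real.pi * (σ - 1 / 2) = Real.pi * σ - Real.pi / 2 by ring,
        Real.sin_sub_pi_div_two, Real.cos_sub_pi_div_two]
    set T := Real.tan (Real.pi * (σ - 1 / 2)) * Real.tan (Real.pi * s) with hT
    have hT0 : Real.pi ^ 2 * (σ - 1 / 2) * s ≤ T := by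
      have := mul_le_mul t1 t2 (by positivity) ((by nlinarith : (0 : ℝ) ≤ Real.pi * (σ - 1 / 2)).trans t1)
      calc Real.pi ^ 2 * (σ - 1 / 2) * s = Real.pi * (σ - 1 / 2) * (Real.pi * s) := by ring
        _ ≤ _ := this
    have hTpos : 0 ≤ T := le_trans (by
      have : 0 < σ - 1 / 2 := by linarith
      positivity) hT0
    have eT : T * (Real.sin (Real.pi * σ) * Real.cos (Real.pi * s)) =
        -Real.cos (Real.pi * σ) * Real.sin (Real.pi * s) := by
      rw [hT, e1, Real.tan_eq_sin_div_cos]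
      field_simp
    have eB : Real.sin (Real.pi * (σ + s)) =
        (Real.sin (Real.pi * σ) * Real.cos (Real.pi * s)) * (1 - T) := by
      rw [mul_add, Real.sin_add]
      linear_combination eT
    have eA : Real.sin (Real.pi * (σ - s)) =
        (Real.sin (Real.pi * σ) * Real.cos (Real.pi * s)) * (1 + T) := by
      rw [mul_sub, Real.sin_sub]
      linear_combination (-1 : ℝ) * eT
    have hB : 0 < Real.sin (Real.pi * (σ + s)) :=
      Real.sin_pos_of_pos_of_lt_pi (by nlinarith) (by nlinarith)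
    have hP : 0 < Real.sin (Real.pi * σ) * Real.cos (Real.pi * s) := mul_pos sσ cs
    have hT1 : 0 < 1 - T := by
      rw [eB] at hB
      exact (mul_pos_iff_of_pos_left hP).1 hB
    have h2 := two_mul_le_log hTpos (by linarith)
    have l1 : Real.log (2 * (Real.sin (Real.pi * σ) * Real.cos (Real.pi * s) * (1 - T))) =
        Real.log (2 * (Real.sin (Real.pi * σ) * Real.cos (Real.pi * s))) + Real.log (1 - T) := by
      rw [← Real.log_mul (by positivity) hT1.ne']; ring_nf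
    have l2 : Real.log (2 * (Real.sin (Real.pi * σ) * Real.cos (Real.pi * s) * (1 + T))) =
        Real.log (2 * (Real.sin (Real.pi * σ) * Real.cos (Real.pi * s))) + Real.log (1 + T) := by
      rw [← Real.log_mul (by positivity) (by linarith)]; ring_nf
    rw [eA, eB, l1, l2]
    linarith

theorem win_quad {ξ τ : ℝ} (hξ : |ξ| ≤ 1 / 2) (hτ : |τ - 1 / 4| ≤ 1 / 50) :
    win 0 ξ τ ≤ win 0 0 τ - ξ ^ 2 := by
  have hpi := Real.pi_gt_three
  have hpi2 : 9 ≤ Real.pi ^ 2 := by nlinarith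
  obtain ⟨τ0, τ1⟩ := abs_le.1 hτ
  have key : ∀ ξ : ℝ, 0 ≤ ξ → ξ ≤ 1 / 2 → win 0 ξ τ ≤ win 0 0 τ - ξ ^ 2 := by
    intro ξ x0 x1
    have m1 := Gs_mono (σ := τ + 1 / 2) (by linarith) (by linarith)
    have m2 := Gs_mono (σ := 1 - τ) (by linarith) (by linarith)
    have g0 : ∀ σ, Gs σ 0 = 0 := by intro σ; unfold Gs; simp; ring
    rw [win0, win0_zero]
    rcases le_total ξ (1 / 2 - τ) with hx | hx
    · have h1 := m1 (Set.mem_Icc.2 ⟨le_rfl, by linarith⟩) (Set.mem_Icc.2 ⟨x0, by linarith⟩) x0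
      simp only [g0] at h1
      unfold Gs at h1
      have e1 : ll (ξ - τ + 1 / 2) = - ll (τ + 1 / 2 - ξ) := by
        rw [← ll_refl]; congr 1; ring
      rw [e1, show ξ + τ + 1 / 2 = τ + 1 / 2 + ξ by ring]
      have h3 : ξ ^ 2 ≤ Real.pi ^ 2 * (τ + 1 / 2 - 1 / 2) * ξ ^ 2 := by
        apply le_mul_of_one_le_left (sq_nonneg _)
        nlinarith
      nlinarith
    · have h1 := m1 (Set.mem_Icc.2 ⟨le_rfl, by linarith⟩)
        (Set.mem_Icc.2 ⟨by linarith, by linarith⟩ : 1 / 2 - τ ∈ Set.Icc 0 (1 - (τ + 1 / 2)))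
        (by linarith)
      have h2 := m2 (Set.mem_Icc.2 ⟨by linarith, by linarith⟩ : 1 / 2 - ξ ∈ Set.Icc 0 (1 - (1 - τ)))
        (Set.mem_Icc.2 ⟨by linarith, by linarith⟩ : τ ∈ Set.Icc 0 (1 - (1 - τ))) (by linarith)
      simp only [g0] at h1
      simp only [Gs_refl] at h2
      unfold Gs at h1 h2
      have e1 : ll (τ + 1 / 2 + (1 / 2 - τ)) = 0 := by
        rw [show τ + 1 / 2 + (1 / 2 - τ) = 1 by ring, ll_one]
      have e2 : ll (τ + 1 / 2 - (1 / 2 - τ)) = ll (τ + τ) := by congr 1; ring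
      have e3 : ll (τ - τ) = 0 := by rw [sub_self, ll_zero]
      have e4 : ll (ξ + τ + 1 / 2) = ll (τ - (1 / 2 - ξ)) := by
        rw [← ll_add_one (τ - (1 / 2 - ξ))]; congr 1; ring
      have e5 : ll (ξ - τ + 1 / 2) = - ll (τ + (1 / 2 - ξ)) := by
        rw [← ll_refl]; congr 1; ring
      rw [e1, e2] at h1
      rw [e3] at h2
      rw [e4, e5]
      have f1 : 2 * (1 / 2 - τ) ^ 2 ≤ Real.pi ^ 2 * (τ + 1 / 2 - 1 / 2) * (1 / 2 - τ) ^ 2 := by
        apply mul_le_mul_of_nonneg_right _ (sq_nonneg _)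
        nlinarith
      have f2 : 2 * (τ ^ 2 - (1 / 2 - ξ) ^ 2) ≤
          Real.pi ^ 2 * (1 - τ - 1 / 2) * (τ ^ 2 - (1 / 2 - ξ) ^ 2) := by
        apply mul_le_mul_of_nonneg_right
        · nlinarith
        · nlinarith
      have f3 : ξ ^ 2 ≤ 2 * (1 / 2 - τ) ^ 2 + 2 * (τ ^ 2 - (1 / 2 - ξ) ^ 2) := by
        nlinarith [sq_nonneg (τ - 1 / 4), sq_nonneg (1 / 2 - τ), mul_nonneg
          (by linarith : (0 : ℝ) ≤ 1 / 2 - ξ) (by linarith : (0 : ℝ) ≤ τ - (1 / 2 - ξ))]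
      nlinarith
  rcases le_total 0 ξ with h | h
  · exact key ξ h ((le_abs_self _).trans hξ)
  · rw [← win0_neg, ← neg_sq]
    exact key (-ξ) (by linarith) ((neg_le_abs _).trans hξ)

/-! ### the gap in `τ` -/

lemma U0_cont : Continuous U0 := by
  unfold U0
  have := ll_cont
  fun_prop

lemma U0_deriv {τ : ℝ} (h0 : 0 < τ) (h1 : τ < 1 / 2) : HasDerivAt U0
    (2 * Real.log (2 * Real.cos (Real.pi * τ)) - 2 * Real.log (2 * Real.sin (Real.pi * τ))) τ := by
  have d1 : HasDerivAt (fun τ : ℝ => τ + 1 / 2) 1 τ := (hasDerivAt_id τ).add_const _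
  have d3 : HasDerivAt (fun τ => ll (τ + 1 / 2))
      (Real.log (2 * Real.sin (Real.pi * (τ + 1 / 2))) * 1) τ :=
    HasDerivAt.comp (h₂ := ll) τ (ll_deriv (by linarith) (by linarith)) d1
  have d4 := ll_deriv h0 (by linarith : τ < 1)
  refine ((d3.const_mul 2).sub (d4.const_mul 2)).congr_deriv ?_
  rw [mul_one, mul_add, show Real.pi * (1 / 2) = Real.pi / 2 by ring, Real.sin_add_pi_div_two]

lemma U0_zero : U0 0 = 0 := by
  unfold U0
  rw [zero_add, ll_half, ll_zero]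
  ring

lemma U0_incr : StrictMonoOn U0 (Set.Icc 0 (1 / 4)) := by
  have hpi := Real.pi_pos
  apply strictMonoOn_of_deriv_pos (convex_Icc _ _) U0_cont.continuousOn
  rw [interior_Icc]
  intro τ hτ
  obtain ⟨h0, h1⟩ := hτ
  rw [(U0_deriv h0 (by linarith)).deriv]
  have hs : 0 < Real.sin (Real.pi * τ) :=
    Real.sin_pos_of_pos_of_lt_pi (by positivity) (by nlinarith)
  have hc : Real.sin (Real.pi * τ) < Real.cos (Real.pi * τ) := by
    rw [← Real.sin_pi_div_two_sub]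
    apply Real.sin_lt_sin_of_lt_of_le_pi_div_two
    · nlinarith
    · nlinarith
    · nlinarith
  have := Real.log_lt_log (by positivity) (mul_lt_mul_of_pos_left hc (by norm_num : (0 : ℝ) < 2))
  linarith

lemma U0_decr : StrictAntiOn U0 (Set.Icc (1 / 4) (1 / 2)) := by
  have hpi := Real.pi_pos
  apply strictAntiOn_of_deriv_neg (convex_Icc _ _) U0_cont.continuousOn
  rw [interior_Icc]
  intro τ hτ
  obtain ⟨h0, h1⟩ := hτ
  rw [(U0_deriv (by linarith) h1).deriv]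
  have hs : 0 < Real.cos (Real.pi * τ) := by
    apply Real.cos_pos_of_mem_Ioo
    constructor <;> nlinarith
  have hc : Real.cos (Real.pi * τ) < Real.sin (Real.pi * τ) := by
    rw [← Real.sin_pi_div_two_sub]
    apply Real.sin_lt_sin_of_lt_of_le_pi_div_two
    · nlinarith
    · nlinarith
    · nlinarith
  have := Real.log_lt_log (by positivity) (mul_lt_mul_of_pos_left hc (by norm_num : (0 : ℝ) < 2))
  linarith

lemma U0_quarter_pos : 0 < U0 (1 / 4) := by
  rw [← U0_zero]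
  exact U0_incr ⟨le_rfl, by norm_num⟩ ⟨by norm_num, le_rfl⟩ (by norm_num)

lemma U0_hi {τ : ℝ} (h0 : 1 / 2 ≤ τ) (h1 : τ ≤ 1) : U0 τ ≤ 0 := by
  have := win_hi (ξ := 0) (by norm_num) h0 h1
  rw [U0_eq (by linarith) h1]
  linarith

lemma U0_lt {τ : ℝ} (h0 : 0 ≤ τ) (h1 : τ ≤ 1) (hne : τ ≠ 1 / 4) : U0 τ < U0 (1 / 4) := by
  rcases lt_or_ge τ (1 / 4) with h | h
  · exact U0_incr ⟨h0, h.le⟩ ⟨by norm_num, le_rfl⟩ h
  · have h' : 1 / 4 < τ := lt_of_le_of_ne h (Ne.symm hne)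
    rcases le_total τ (1 / 2) with h2 | h2
    · exact U0_decr ⟨le_rfl, by norm_num⟩ ⟨h, h2⟩ h'
    · exact (U0_hi h2 h1).trans_lt U0_quarter_pos

theorem U0_gap {r : ℝ} (hr : 0 < r) : ∃ δ > 0, ∀ τ : ℝ, 0 ≤ τ → τ ≤ 1 → r ≤ |τ - 1 / 4| →
    U0 τ ≤ U0 (1 / 4) - δ := by
  set K : Set ℝ := Set.Icc 0 1 ∩ {τ | r ≤ |τ - 1 / 4|} with hK
  have hKc : IsCompact K := isCompact_Icc.inter_right (isClosed_le continuous_const (by fun_prop))
  rcases K.eq_empty_or_nonempty with he | hne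
  · refine ⟨1, one_pos, fun τ h0 h1 h2 => ?_⟩
    exfalso
    have : τ ∈ K := ⟨⟨h0, h1⟩, h2⟩
    rw [he] at this
    exact this
  · obtain ⟨x, hx, hmax⟩ := hKc.exists_isMaxOn hne U0_cont.continuousOn
    have hxlt : U0 x < U0 (1 / 4) := by
      apply U0_lt hx.1.1 hx.1.2
      intro h
      have h2 : r ≤ |x - 1 / 4| := hx.2
      rw [h, sub_self, abs_zero] at h2
      linarith
    refine ⟨U0 (1 / 4) - U0 x, by linarith, fun τ h0 h1 h2 => ?_⟩
    have := hmax (⟨⟨h0, h1⟩, h2⟩ : τ ∈ K)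
    simp only [Set.mem_ofPred_eq] at this
    linarith

theorem win_le_max {ξ τ : ℝ} (hξ : |ξ| ≤ 1 / 2) (h0 : 0 ≤ τ) (h1 : τ ≤ 1) :
    win 0 ξ τ - 2 * ll τ ≤ U0 (1 / 4) := by
  rcases le_total τ (1 / 2) with h | h
  · have h2 := win_zero hξ h0 h
    have h3 := U0_eq h0 h1
    have h4 : U0 τ ≤ U0 (1 / 4) := by
      by_cases h5 : τ = 1 / 4
      · rw [h5]
      · exact (U0_lt h0 h1 h5).le
    linarith
  · have := win_hi hξ h h1
    have := U0_quarter_pos
    linarith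

theorem win_gap {r : ℝ} (hr : 0 < r) : ∃ δ > 0, ∀ ξ τ : ℝ, |ξ| ≤ 1 / 2 → 0 ≤ τ → τ ≤ 1 →
    r ≤ |τ - 1 / 4| → win 0 ξ τ - 2 * ll τ ≤ U0 (1 / 4) - δ := by
  obtain ⟨δ, hδ, hg⟩ := U0_gap hr
  refine ⟨min δ (U0 (1 / 4)), lt_min hδ U0_quarter_pos, fun ξ τ hξ h0 h1 h2 => ?_⟩
  rcases le_total τ (1 / 2) with h | h
  · have h3 := win_zero hξ h0 h
    have h4 := U0_eq h0 h1
    have h5 := hg τ h0 h1 h2
    have h6 := min_le_left δ (U0 (1 / 4))
    linarith
  · have h3 := win_hi hξ h h1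
    have h6 := min_le_right δ (U0 (1 / 4))
    linarith

/-! ### `gam` on the real axis -/

lemma cc_real {u : ℝ} (hu : |u| < 1 / 2) : cc u = ((Real.log (2 * Real.cos (Real.pi * u)) : ℝ) : ℂ) := by
  have hpi := Real.pi_pos
  obtain ⟨h0, h1⟩ := abs_lt.1 hu
  have hc : 0 < Real.cos (Real.pi * u) := by
    apply Real.cos_pos_of_mem_Ioo
    constructor <;> nlinarith
  unfold cc
  rw [Complex.ofReal_log (by positivity)]
  push_cast
  rfl

lemma CC_real {u : ℝ} (hu : |u| < 1 / 2) : CC u = ((ll (u + 1 / 2) : ℝ) : ℂ) := by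
  have h1 : ∀ s ∈ Set.uIcc (0 : ℝ) 1, cc (s * u) =
      ((Real.log (2 * Real.cos (Real.pi * (s * u))) : ℝ) : ℂ) := by
    intro s hs
    rw [Set.uIcc_of_le zero_le_one] at hs
    rw [← Complex.ofReal_mul]
    apply cc_real
    rw [abs_mul, abs_of_nonneg hs.1]
    exact (mul_le_of_le_one_left (abs_nonneg _) hs.2).trans_lt hu
  unfold CC
  rw [intervalIntegral.integral_congr h1, intervalIntegral.integral_ofReal, ← Complex.ofReal_mul]
  congr 1
  have h2 := intervalIntegral.mul_integral_comp_mul_right (a := 0) (b := 1)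
    (f := fun v => Real.log (2 * Real.cos (Real.pi * v))) u
  rw [h2, zero_mul, one_mul]
  have h3 := int_ee_zero 0 u
  rw [zero_add, ll_half, sub_zero] at h3
  rw [← h3]
  congr 1
  funext v
  rw [ee_zero]

theorem gam_real {τ : ℝ} (hτ : |τ - 1 / 4| ≤ 1 / 20) : gam 0 τ = U0 τ := by
  obtain ⟨h0, h1⟩ := abs_le.1 hτ
  unfold gam U0
  rw [add_zero, sub_zero, CC_real (by rw [abs_lt]; constructor <;> linarith),
    show (τ : ℂ) - 1 / 2 = ((τ - 1 / 2 : ℝ) : ℂ) by push_cast; ring,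
    CC_real (by rw [abs_lt]; constructor <;> linarith), show τ - 1 / 2 + 1 / 2 = τ by ring]
  push_cast
  ring

end Pool.Agent.Helper48.TF
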