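import Mathlib
import Pool.Agent.Helper9.TF.Defs
import Pool.Agent.Helper96.TB.GBnd
import Pool.Agent.Helper11.TB.Win

/-!
# Crude bound of the basic functions
-/

namespace Pool.Agent.Helper48.TF

open Finset MeasureTheory
open Pool.Agent.Helper9.TB Pool.Agent.Helper9.TF
open Pool.Agent.Helper11.TB
open Pool.Agent.Helper9.Kashaev (HH logS unif sn)

lemma norm_two_cos_sq (u v : ℝ) :
    ‖2 * Complex.cos (Real.pi * ((u : ℂ) + (v : ℝ) * Complex.I))‖ ^ 2 =
      2 * (Real.cosh (2 * Real.pi * v) + Real.cos (2 * Real.pi * u)) := by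
  have h1 : (Real.pi : ℂ) * ((u : ℂ) + (v : ℝ) * Complex.I) =
      ((Real.pi * u : ℝ) : ℂ) + ((Real.pi * v : ℝ) : ℂ) * Complex.I := by push_cast; ring
  rw [h1, Complex.cos_add_mul_I, norm_mul, mul_pow, ← Complex.normSq_eq_norm_sq
    (Complex.cos _ * _ - _)]
  rw [← Complex.ofReal_cos, ← Complex.ofReal_sin, ← Complex.ofReal_cosh, ← Complex.ofReal_sinh]
  rw [Complex.normSq_apply]
  simp only [Complex.sub_re, Complex.mul_re, Complex.ofReal_re, Complex.ofReal_im, mul_zero,
    sub_zero, Complex.I_re, Complex.I_im, Complex.mul_im, Complex.sub_im, add_zero, mul_one,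
    zero_mul, zero_sub, sub_self, Complex.norm_ofNat]
  have e1 : Real.cosh (2 * Real.pi * v) = 1 + 2 * Real.sinh (Real.pi * v) ^ 2 := by
    rw [show 2 * Real.pi * v = 2 * (Real.pi * v) by ring, Real.cosh_two_mul, Real.cosh_sq]
    ring
  have e2 : Real.cos (2 * Real.pi * u) = 2 * Real.cos (Real.pi * u) ^ 2 - 1 := by
    rw [show 2 * Real.pi * u = 2 * (Real.pi * u) by ring, Real.cos_two_mul]
  have e3 := Real.cosh_sq (Real.pi * v)
  have e4 := Real.sin_sq (Real.pi * u)
  rw [e1, e2]
  linear_combination (4 * Real.cos (Real.pi * u) ^ 2) * e3 +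
    (4 * Real.sinh (Real.pi * v) ^ 2) * e4

lemma norm_two_cos_le {h : ℝ} (hh : 0 < h) {z : ℂ} (hz : |z.im| ≤ h) :
    ‖2 * Complex.cos (Real.pi * z)‖ ≤ Real.exp (ee h z.re) := by
  have h1 := norm_two_cos_sq z.re z.im
  rw [Complex.re_add_im] at h1
  have hpos := arg_pos hh z.re
  have h3 : Real.exp (ee h z.re) ^ 2 =
      2 * (Real.cosh (2 * Real.pi * h) + Real.cos (2 * Real.pi * z.re)) := by
    rw [← Real.exp_nat_mul]
    unfold ee
    push_cast
    rw [mul_div_cancel₀ _ (by norm_num : (2 : ℝ) ≠ 0), Real.exp_log hpos]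
  apply le_of_sq_le_sq _ (Real.exp_pos _).le
  rw [h1, h3]
  have h4 : Real.cosh (2 * Real.pi * z.im) ≤ Real.cosh (2 * Real.pi * h) := by
    rw [Real.cosh_le_cosh, abs_mul (2 * Real.pi) z.im, abs_mul (2 * Real.pi) h,
      abs_of_pos (by positivity : (0 : ℝ) < 2 * Real.pi), abs_of_pos hh]
    exact mul_le_mul_of_nonneg_left hz (by positivity)
  linarith

lemma win_split {h : ℝ} (hh : 0 < h) (ξ τ : ℝ) :
    ∫ x in (0 : ℝ)..τ, (ee h (ξ + x) + ee h (ξ - x)) = win h ξ τ := by
  have c := Pool.Agent.Helper11.TB.ee_cont hh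
  have c1 : Continuous (fun x => ee h (ξ + x)) := c.comp (by fun_prop)
  have c2 : Continuous (fun x => ee h (ξ - x)) := c.comp (by fun_prop)
  rw [intervalIntegral.integral_add (c1.intervalIntegrable _ _)
    (c2.intervalIntegrable _ _), intervalIntegral.integral_comp_add_left
    (fun u => ee h u), intervalIntegral.integral_comp_sub_left (fun u => ee h u), add_zero, sub_zero,
    add_comm (∫ u in ξ..(ξ + τ), ee h u), intervalIntegral.integral_add_adjacent_intervals
    (c.intervalIntegrable _ _) (c.intervalIntegrable _ _)]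
  rfl

lemma log_sf (N m : ℕ) : logS N m = ∑ j ∈ range m, Real.log (sb ((j + 1 : ℕ) / N)) := by
  unfold logS
  apply sum_congr rfl
  intro j _
  unfold sn sb
  congr 3
  push_cast
  ring

lemma sf_lower {N m : ℕ} (hN : 2 ≤ N) (hm : m < N) :
    Real.exp (N * ll (m / N) - (1 + 4 * Real.log N)) ≤ sf N m := by
  have hNR : (0 : ℝ) < N := by positivity
  have h1 := unif hN hm
  have h2 : N / Real.pi * HH (Real.pi / N * m) = N * ll (m / N) := by
    rw [ll_eq_HH]
    have := Real.pi_pos
    rw [show Real.pi / N * m = Real.pi * (m / N) by ring]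
    ring
  rw [h2, log_sf] at h1
  have hp := sf_pos (M := (N : ℝ)) (n := m) (by exact_mod_cast hm)
  have h3 : Real.log (sf N m) = ∑ j ∈ range m, Real.log (sb ((j + 1 : ℕ) / N)) := by
    unfold sf
    rw [Real.log_prod]
    intro j hj
    rw [mem_range] at hj
    apply ne_of_gt
    apply sb_pos
    · positivity
    · rw [div_lt_one hNR]; exact_mod_cast (by omega : j + 1 < N)
  rw [← h3] at h1
  rw [← Real.exp_log hp]
  apply Real.exp_le_exp.2
  have := (abs_le.1 h1).1
  linarith

theorem gm_le {h : ℝ} (hh : 0 < h) : ∃ (C : ℝ) (k : ℕ), 0 < C ∧ ∀ N m : ℕ, 2 ≤ N → m < N → ∀ y : ℂ,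
    |y.re| ≤ 1 / 2 → |y.im| ≤ h →
      ‖gm N m y‖ ≤ C * N ^ k * Real.exp (N * (win h y.re (m / N) - 2 * ll (m / N))) := by
  obtain ⟨C, hC⟩ := riem_ee hh
  refine ⟨Real.exp (C + 2), 8, Real.exp_pos _, ?_⟩
  intro N m hN hm y _ hy
  have hNR : (0 : ℝ) < N := by positivity
  have hp := sf_pos (M := (N : ℝ)) (n := m) (by exact_mod_cast hm)
  have h1 := hC N 0 m (by omega) (Nat.zero_le _) hm.le h le_rfl y.re
  rw [Nat.cast_zero, zero_div, win_split hh, ← Finset.range_eq_Ico] at h1
  have h2 := (abs_le.1 h1).2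
  have h3 : ‖∏ k ∈ range m, 4 * Complex.cos (Real.pi * (y + xk N k)) *
      Complex.cos (Real.pi * (y - xk N k))‖ ≤
      Real.exp (∑ k ∈ range m, (ee h (y.re + (2 * k + 1) / (2 * N)) +
        ee h (y.re - (2 * k + 1) / (2 * N)))) := by
    rw [norm_prod, Real.exp_sum]
    apply prod_le_prod
    · intro k _; exact norm_nonneg _
    · intro k _
      have e1 : 4 * Complex.cos (Real.pi * (y + xk N k)) * Complex.cos (Real.pi * (y - xk N k)) =
          (2 * Complex.cos (Real.pi * (y + xk N k))) * (2 * Complex.cos (Real.pi * (y - xk N k))) := by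
        ring
      rw [e1, norm_mul, Real.exp_add]
      have a1 := norm_two_cos_le hh (z := y + xk N k) (by simpa using hy)
      have a2 := norm_two_cos_le hh (z := y - xk N k) (by simpa using hy)
      simp only [Complex.add_re, Complex.sub_re, Complex.ofReal_re] at a1 a2
      unfold xk at a1 a2 ⊢
      exact mul_le_mul a1 a2 (norm_nonneg _) (Real.exp_pos _).le
  unfold gm
  rw [norm_div, norm_pow, Complex.norm_real, Real.norm_of_nonneg hp.le, div_le_iff₀ (by positivity)]
  refine h3.trans ?_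
  have h4 := sf_lower hN hm
  have h5 : Real.exp (2 * (N * ll (m / N)) - (2 + 8 * Real.log N)) ≤ sf N m ^ 2 := by
    have := pow_le_pow_left₀ (Real.exp_pos _).le h4 2
    rw [← Real.exp_nat_mul] at this
    refine le_trans (le_of_eq ?_) this
    congr 1
    push_cast
    ring
  have h6 : (N : ℝ) ^ 8 = Real.exp (8 * Real.log N) := by
    rw [← Real.exp_log (pow_pos hNR 8), Real.log_pow]
    norm_num
  calc Real.exp (∑ k ∈ range m, (ee h (y.re + (2 * k + 1) / (2 * N)) +
        ee h (y.re - (2 * k + 1) / (2 * N))))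
      ≤ Real.exp (C + N * win h y.re (m / N)) := Real.exp_le_exp.2 (by linarith)
    _ = Real.exp (C + 2) * Real.exp (8 * Real.log N) *
          Real.exp (N * (win h y.re (m / N) - 2 * ll (m / N))) *
          Real.exp (2 * (N * ll (m / N)) - (2 + 8 * Real.log N)) := by
        rw [← Real.exp_add, ← Real.exp_add, ← Real.exp_add]
        congr 1
        ring
    _ ≤ Real.exp (C + 2) * N ^ 8 * Real.exp (N * (win h y.re (m / N) - 2 * ll (m / N))) *
          sf N m ^ 2 := by
        rw [h6]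
        exact mul_le_mul_of_nonneg_left h5 (by positivity)

end Pool.Agent.Helper48.TF
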